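import Mathlib

/-!
The algebraic core of the four dimensional construction: in a field `F` with a `K`-endomorphism
`φ` whose fixed field is `K`, the set of all `x` with `x * φ (φ x) = 1` has no three collinear and
no five coplanar points over `K`.
-/

set_option autoImplicit false

namespace Pool.Agent.MP_45c2e2_co

variable {K F : Type*} [Field K] [Field F] [Algebra K F]

/-- The torus `x * φ (φ x) = 1`. -/
def Tor (φ : F →ₐ[K] F) : Set F := {x | x * φ (φ x) = 1}

lemma tor_line (φ : F →ₐ[K] F) (x y z : F) (hx : x ∈ Tor φ) (hy : y ∈ Tor φ) (hz : z ∈ Tor φ)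
    (hxy : x ≠ y) (s : K) (h : z = x + s • (y - x)) : z = x ∨ z = y := by
  obtain ⟨v, hv⟩ : ∃ v, v = y - x := ⟨_, rfl⟩
  have hy' : y = x + v := by rw [hv]; ring
  have hv0 : v ≠ 0 := by
    rw [hv]; exact sub_ne_zero.mpr hxy.symm
  rw [← hv] at h
  simp only [Tor, Set.mem_setOf_eq] at hx hy hz
  have hz' : z = x + algebraMap K F s * v := by rw [h, Algebra.smul_def]
  rw [hy', map_add, map_add] at hy
  rw [hz', map_add, map_add, map_mul, map_mul, AlgHom.commutes, AlgHom.commutes] at hz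
  obtain ⟨t, ht⟩ : ∃ t, t = algebraMap K F s := ⟨_, rfl⟩
  rw [← ht] at hz
  have key : t * (t - 1) * (v * φ (φ v)) = 0 := by
    linear_combination hz - t * hy - (1 - t) * hx
  have hNv : v * φ (φ v) ≠ 0 := by
    refine mul_ne_zero hv0 ?_
    intro h0
    have := (map_eq_zero φ).1 h0
    exact hv0 ((map_eq_zero φ).1 this)
  rcases mul_eq_zero.1 key with h1 | h1
  · rcases mul_eq_zero.1 h1 with h2 | h2
    · left
      rw [hz', ← ht, h2]; ring
    · right
      have : t = 1 := by linear_combination h2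
      rw [hz', ← ht, this, hy']; ring
  · exact absurd h1 hNv

lemma tor_plane (φ : F →ₐ[K] F) (hfix : ∀ w : F, φ w = w → ∃ s : K, algebraMap K F s = w)
    (x0 x1 x2 x3 x4 : F) (h0 : x0 ∈ Tor φ) (h1 : x1 ∈ Tor φ) (h2 : x2 ∈ Tor φ)
    (h3 : x3 ∈ Tor φ) (h4 : x4 ∈ Tor φ)
    (h01 : x0 ≠ x1) (h02 : x0 ≠ x2) (h03 : x0 ≠ x3) (h04 : x0 ≠ x4) (h12 : x1 ≠ x2)
    (h13 : x1 ≠ x3) (h14 : x1 ≠ x4) (h23 : x2 ≠ x3) (h24 : x2 ≠ x4) (h34 : x3 ≠ x4)
    (s3 t3 s4 t4 : K)
    (e3 : x3 = x0 + s3 • (x1 - x0) + t3 • (x2 - x0))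
    (e4 : x4 = x0 + s4 • (x1 - x0) + t4 • (x2 - x0)) : False := by
  -- nonvanishing of the coefficients
  have hs3 : s3 ≠ 0 := by
    rintro rfl
    rw [zero_smul, add_zero] at e3
    rcases tor_line φ x0 x2 x3 h0 h2 h3 h02 t3 e3 with h | h
    · exact h03 h.symm
    · exact h23 h.symm
  have ht3 : t3 ≠ 0 := by
    rintro rfl
    rw [zero_smul, add_zero] at e3
    rcases tor_line φ x0 x1 x3 h0 h1 h3 h01 s3 e3 with h | h
    · exact h03 h.symm
    · exact h13 h.symm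
  have hs4 : s4 ≠ 0 := by
    rintro rfl
    rw [zero_smul, add_zero] at e4
    rcases tor_line φ x0 x2 x4 h0 h2 h4 h02 t4 e4 with h | h
    · exact h04 h.symm
    · exact h24 h.symm
  have ht4 : t4 ≠ 0 := by
    rintro rfl
    rw [zero_smul, add_zero] at e4
    rcases tor_line φ x0 x1 x4 h0 h1 h4 h01 s4 e4 with h | h
    · exact h04 h.symm
    · exact h14 h.symm
  have hD : (s3 - 1) * t4 - (s4 - 1) * t3 ≠ 0 := by
    intro hD
    have hline : x4 = x1 + (t4 * t3⁻¹) • (x3 - x1) := by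
      have hc : (s4 - 1) = t4 * t3⁻¹ * (s3 - 1) := by
        field_simp
        linear_combination -hD
      have hs : x4 = x1 + (s4 - 1) • (x1 - x0) + t4 • (x2 - x0) := by
        rw [e4, sub_smul, one_smul]; abel
      have hs' : x3 - x1 = (s3 - 1) • (x1 - x0) + t3 • (x2 - x0) := by
        rw [e3, sub_smul, one_smul]; abel
      rw [hs, hs', smul_add, smul_smul, smul_smul, ← hc]
      have : t4 * t3⁻¹ * t3 = t4 := by field_simp
      rw [this]; abel
    rcases tor_line φ x1 x3 x4 h1 h3 h4 h13 _ hline with h | h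
    · exact h14 h.symm
    · exact h34 h.symm
  -- translate
  obtain ⟨a, ha⟩ : ∃ a, a = x1 - x0 := ⟨_, rfl⟩
  obtain ⟨b, hb⟩ : ∃ b, b = x2 - x0 := ⟨_, rfl⟩
  have ha0 : a ≠ 0 := by rw [ha]; exact sub_ne_zero.mpr h01.symm
  have hb0 : b ≠ 0 := by rw [hb]; exact sub_ne_zero.mpr h02.symm
  rw [← ha, ← hb, Algebra.smul_def, Algebra.smul_def] at e3 e4
  have e1 : x1 = x0 + a := by rw [ha]; ring
  have e2 : x2 = x0 + b := by rw [hb]; ring
  simp only [Tor, Set.mem_setOf_eq] at h0 h1 h2 h3 h4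
  rw [e1, map_add, map_add] at h1
  rw [e2, map_add, map_add] at h2
  rw [e3, map_add, map_add, map_add, map_add, map_mul, map_mul, map_mul, map_mul,
    AlgHom.commutes, AlgHom.commutes, AlgHom.commutes, AlgHom.commutes] at h3
  rw [e4, map_add, map_add, map_add, map_add, map_mul, map_mul, map_mul, map_mul,
    AlgHom.commutes, AlgHom.commutes, AlgHom.commutes, AlgHom.commutes] at h4
  obtain ⟨c, hc⟩ : ∃ c, c = φ (φ a) := ⟨_, rfl⟩
  obtain ⟨d, hd⟩ : ∃ d, d = φ (φ b) := ⟨_, rfl⟩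
  obtain ⟨y, hy⟩ : ∃ y, y = φ (φ x0) := ⟨_, rfl⟩
  have hd0 : d ≠ 0 := by
    rw [hd]
    intro h
    exact hb0 ((map_eq_zero φ).1 ((map_eq_zero φ).1 h))
  rw [← hc, ← hy] at h1
  rw [← hd, ← hy] at h2
  rw [← hy] at h0
  rw [← hc, ← hd, ← hy] at h3 h4
  obtain ⟨S3, hS3⟩ : ∃ S3, S3 = algebraMap K F s3 := ⟨_, rfl⟩
  obtain ⟨T3, hT3⟩ : ∃ T3, T3 = algebraMap K F t3 := ⟨_, rfl⟩
  obtain ⟨S4, hS4⟩ : ∃ S4, S4 = algebraMap K F s4 := ⟨_, rfl⟩
  obtain ⟨T4, hT4⟩ : ∃ T4, T4 = algebraMap K F t4 := ⟨_, rfl⟩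
  rw [← hS3, ← hT3] at h3
  rw [← hS4, ← hT4] at h4
  have inj := (algebraMap K F).injective
  have hS30 : S3 ≠ 0 := by rw [hS3]; exact (map_ne_zero _).2 hs3
  have hT30 : T3 ≠ 0 := by rw [hT3]; exact (map_ne_zero _).2 ht3
  have hS40 : S4 ≠ 0 := by rw [hS4]; exact (map_ne_zero _).2 hs4
  have hT40 : T4 ≠ 0 := by rw [hT4]; exact (map_ne_zero _).2 ht4
  have q3 : S3 * (S3 - 1) * (a * c) + T3 * (T3 - 1) * (b * d) + S3 * T3 * (a * d + b * c) = 0 := by
    linear_combination h3 - S3 * h1 - T3 * h2 - (1 - S3 - T3) * h0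
  have q4 : S4 * (S4 - 1) * (a * c) + T4 * (T4 - 1) * (b * d) + S4 * T4 * (a * d + b * c) = 0 := by
    linear_combination h4 - S4 * h1 - T4 * h2 - (1 - S4 - T4) * h0
  -- ratios in `K`
  obtain ⟨D, hDD⟩ : ∃ D, D = (s3 - 1) * t4 - (s4 - 1) * t3 := ⟨_, rfl⟩
  obtain ⟨ν, hν⟩ : ∃ ν : K, ν = -((t3 - 1) * s4 - (t4 - 1) * s3) * (t3 * t4) / (D * (s3 * s4)) :=
    ⟨_, rfl⟩
  rw [← hDD] at hD
  have hDF : algebraMap K F D = (S3 - 1) * T4 - (S4 - 1) * T3 := by
    rw [hDD, hS3, hT3, hS4, hT4]; simp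
  have hDF0 : algebraMap K F D ≠ 0 := (map_ne_zero _).2 hD
  have r1 : algebraMap K F D * (S3 * S4) * (a * c)
      = -((T3 - 1) * S4 - (T4 - 1) * S3) * (T3 * T4) * (b * d) := by
    rw [hDF]
    linear_combination S4 * T4 * q3 - S3 * T3 * q4
  have hνF : algebraMap K F ν
      = -((T3 - 1) * S4 - (T4 - 1) * S3) * (T3 * T4) / (algebraMap K F D * (S3 * S4)) := by
    rw [hν, hS3, hT3, hS4, hT4]; simp
  have r2 : a * c = algebraMap K F ν * (b * d) := by
    rw [hνF]
    field_simp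
    linear_combination r1
  obtain ⟨τ, hτ⟩ : ∃ τ : K, τ = -(s3 * (s3 - 1) * ν + t3 * (t3 - 1)) / (s3 * t3) := ⟨_, rfl⟩
  have hτF : algebraMap K F τ
      = -(S3 * (S3 - 1) * algebraMap K F ν + T3 * (T3 - 1)) / (S3 * T3) := by
    rw [hτ, hS3, hT3]; simp
  have r3 : a * d + b * c = algebraMap K F τ * (b * d) := by
    rw [hτF]
    field_simp
    rw [r2] at q3
    linear_combination q3
  -- the ratio `w = a / b`
  obtain ⟨w, hw⟩ : ∃ w, w = a / b := ⟨_, rfl⟩
  have hwb : a = w * b := by rw [hw]; field_simp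
  have hcd : c = φ (φ w) * d := by
    rw [hc, hd, hwb, map_mul, map_mul]
  have w1 : w * φ (φ w) = algebraMap K F ν := by
    have : (w * φ (φ w) - algebraMap K F ν) * (b * d) = 0 := by
      rw [hcd, hwb] at r2
      linear_combination r2
    rcases mul_eq_zero.1 this with h | h
    · linear_combination h
    · exact absurd h (mul_ne_zero hb0 hd0)
  have w2 : w + φ (φ w) = algebraMap K F τ := by
    have : (w + φ (φ w) - algebraMap K F τ) * (b * d) = 0 := by
      rw [hcd, hwb] at r3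
      linear_combination r3
    rcases mul_eq_zero.1 this with h | h
    · linear_combination h
    · exact absurd h (mul_ne_zero hb0 hd0)
  have w3 : φ w * φ (φ (φ w)) = algebraMap K F ν := by
    rw [← map_mul, w1, AlgHom.commutes]
  have w4 : φ w + φ (φ (φ w)) = algebraMap K F τ := by
    rw [← map_add, w2, AlgHom.commutes]
  have w5 : (φ w - w) * (φ w - φ (φ w)) = 0 := by
    linear_combination (-φ w) * w2 + w1 + φ w * w4 - w3
  have w6 : φ w = w := by
    rcases mul_eq_zero.1 w5 with h | h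
    · linear_combination h
    · have : φ w = φ (φ w) := by linear_combination h
      exact (φ.toRingHom.injective this).symm
  obtain ⟨s, hs⟩ := hfix w w6
  have hline : x1 = x0 + s • (x2 - x0) := by
    rw [← hb, Algebra.smul_def, hs, ← hwb, e1]
  rcases tor_line φ x0 x2 x1 (by simpa only [Tor, Set.mem_setOf_eq, ← hy] using h0)
    (by
      simp only [Tor, Set.mem_setOf_eq]
      rw [e2, map_add, map_add, ← hd, ← hy]; exact h2)
    (by
      simp only [Tor, Set.mem_setOf_eq]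
      rw [e1, map_add, map_add, ← hc, ← hy]; exact h1) h02 s hline with h | h
  · exact h01 h.symm
  · exact h12 h

end Pool.Agent.MP_45c2e2_co
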