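import Mathlib

/-!
Real side: finite sets without three collinear and without five coplanar points, and products.
-/

set_option autoImplicit false

namespace Pool.Agent.MP_45c2e2_co

open Module

/-- All points of `A` lie in the grid `{1, ..., N}^d`. -/
def InGrid {d : ℕ} (N : ℕ) (A : Finset (Fin d → ℝ)) : Prop :=
  ∀ x ∈ A, ∀ i : Fin d, ∃ k : ℕ, 1 ≤ k ∧ k ≤ N ∧ x i = (k : ℝ)

/-- No five distinct points of `A` are coplanar. -/
def NoFiveCoplanar {d : ℕ} (A : Finset (Fin d → ℝ)) : Prop :=
  ∀ S : Finset (Fin d → ℝ), S ⊆ A → S.card = 5 → ¬ Coplanar ℝ (S : Set (Fin d → ℝ))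

/-- No three distinct points of `A` are collinear. -/
def NoThreeCollinear {d : ℕ} (A : Finset (Fin d → ℝ)) : Prop :=
  ∀ S : Finset (Fin d → ℝ), S ⊆ A → S.card = 3 → ¬ Collinear ℝ (S : Set (Fin d → ℝ))

section Linear

variable {V W : Type*} [AddCommGroup V] [Module ℝ V] [AddCommGroup W] [Module ℝ W]
  [FiniteDimensional ℝ V] [FiniteDimensional ℝ W]

lemma vectorSpan_image (f : V →ₗ[ℝ] W) (S : Set V) :
    vectorSpan ℝ (f '' S) = (vectorSpan ℝ S).map f := by
  have := (AffineMap.vectorSpan_image_eq_submodule_map (s := S) (f := f.toAffineMap))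
  simpa using this.symm

/-- A linear map which does not lower the dimension of the span of a set is injective on it. -/
lemma injOn_of_finrank (f : V →ₗ[ℝ] W) (S : Set V)
    (h : finrank ℝ (vectorSpan ℝ S) ≤ finrank ℝ (vectorSpan ℝ (f '' S))) : Set.InjOn f S := by
  rw [vectorSpan_image] at h
  have h1 := LinearMap.finrank_range_add_finrank_ker (f.domRestrict (vectorSpan ℝ S))
  rw [LinearMap.range_domRestrict] at h1
  have h2 : finrank ℝ (LinearMap.ker (f.domRestrict (vectorSpan ℝ S))) = 0 := by omega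
  rw [Submodule.finrank_eq_zero] at h2
  intro x hx y hy hxy
  have hmem : x - y ∈ vectorSpan ℝ S := vsub_mem_vectorSpan ℝ hx hy
  have : (⟨x - y, hmem⟩ : vectorSpan ℝ S) ∈ LinearMap.ker (f.domRestrict (vectorSpan ℝ S)) := by
    rw [LinearMap.mem_ker, LinearMap.domRestrict_apply]
    rw [map_sub, hxy, sub_self]
  rw [h2, Submodule.mem_bot] at this
  have h3 := congrArg Subtype.val this
  simp only [ZeroMemClass.coe_zero] at h3
  exact sub_eq_zero.1 h3

lemma finrank_image_le (f : V →ₗ[ℝ] W) (S : Set V) :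
    finrank ℝ (vectorSpan ℝ (f '' S)) ≤ finrank ℝ (vectorSpan ℝ S) := by
  rw [vectorSpan_image]
  exact Submodule.finrank_map_le f _

lemma collinear_iff' (S : Set V) : Collinear ℝ S ↔ finrank ℝ (vectorSpan ℝ S) ≤ 1 := by
  rw [collinear_iff_finrank_le_one]

lemma coplanar_iff' (S : Set V) : Coplanar ℝ S ↔ finrank ℝ (vectorSpan ℝ S) ≤ 2 := by
  rw [coplanar_iff_finrank_le_two]

end Linear

variable {m n : ℕ}

/-- A set with at least three points in a set without collinear triples spans dimension two. -/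
lemma two_le_finrank {d : ℕ} (A U : Finset (Fin d → ℝ)) (hA : NoThreeCollinear A) (hU : U ⊆ A)
    (h3 : 3 ≤ U.card) : 2 ≤ finrank ℝ (vectorSpan ℝ (U : Set (Fin d → ℝ))) := by
  obtain ⟨T, hT, hc⟩ := Finset.exists_subset_card_eq h3
  by_contra hlt
  have h1 : finrank ℝ (vectorSpan ℝ (U : Set (Fin d → ℝ))) ≤ 1 := by omega
  have h2 := (collinear_iff' _).2 h1
  exact hA T (hT.trans hU) hc (h2.subset (by exact_mod_cast hT))

lemma one_le_finrank {d : ℕ} (U : Finset (Fin d → ℝ))
    (h2 : 2 ≤ U.card) : 1 ≤ finrank ℝ (vectorSpan ℝ (U : Set (Fin d → ℝ))) := by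
  by_contra hlt
  have h1 : finrank ℝ (vectorSpan ℝ (U : Set (Fin d → ℝ))) = 0 := by omega
  rw [Submodule.finrank_eq_zero, vectorSpan_eq_bot_iff_subsingleton] at h1
  obtain ⟨x, hx, y, hy, hxy⟩ := Finset.one_lt_card.1 (by omega : 1 < U.card)
  exact hxy (h1 hx hy)

/-- The coordinate projections of `Fin (m + n) → ℝ`. -/
def fstL (m n : ℕ) : (Fin (m + n) → ℝ) →ₗ[ℝ] (Fin m → ℝ) :=
  LinearMap.funLeft ℝ ℝ (Fin.castAdd n)

/-- The coordinate projections of `Fin (m + n) → ℝ`. -/
def sndL (m n : ℕ) : (Fin (m + n) → ℝ) →ₗ[ℝ] (Fin n → ℝ) :=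
  LinearMap.funLeft ℝ ℝ (Fin.natAdd m)

lemma fstL_append (x : Fin m → ℝ) (y : Fin n → ℝ) : fstL m n (Fin.append x y) = x := by
  ext i
  simp [fstL, LinearMap.funLeft_apply]

lemma sndL_append (x : Fin m → ℝ) (y : Fin n → ℝ) : sndL m n (Fin.append x y) = y := by
  ext i
  simp [sndL, LinearMap.funLeft_apply]

lemma ext_proj (z w : Fin (m + n) → ℝ) (h1 : fstL m n z = fstL m n w)
    (h2 : sndL m n z = sndL m n w) : z = w := by
  ext i
  refine Fin.addCases (fun i => ?_) (fun i => ?_) i
  · exact congrFun h1 i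
  · exact congrFun h2 i

/-- The product of two finite sets. -/
noncomputable def prodSet (A : Finset (Fin m → ℝ)) (B : Finset (Fin n → ℝ)) :
    Finset (Fin (m + n) → ℝ) :=
  (A ×ˢ B).image (fun q => Fin.append q.1 q.2)

lemma mem_prodSet (A : Finset (Fin m → ℝ)) (B : Finset (Fin n → ℝ)) (z : Fin (m + n) → ℝ)
    (hz : z ∈ prodSet A B) : fstL m n z ∈ A ∧ sndL m n z ∈ B := by
  unfold prodSet at hz
  rw [Finset.mem_image] at hz
  obtain ⟨⟨x, y⟩, hxy, rfl⟩ := hz
  rw [Finset.mem_product] at hxy
  simp only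
  rw [fstL_append, sndL_append]
  exact hxy

lemma card_prodSet (A : Finset (Fin m → ℝ)) (B : Finset (Fin n → ℝ)) :
    (prodSet A B).card = A.card * B.card := by
  unfold prodSet
  rw [Finset.card_image_of_injective, Finset.card_product]
  rintro ⟨x, y⟩ ⟨x', y'⟩ h
  simp only at h
  have h1 := congrArg (fstL m n) h
  have h2 := congrArg (sndL m n) h
  rw [fstL_append, fstL_append] at h1
  rw [sndL_append, sndL_append] at h2
  rw [h1, h2]

lemma inGrid_prodSet (N : ℕ) (A : Finset (Fin m → ℝ)) (B : Finset (Fin n → ℝ))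
    (hA : InGrid N A) (hB : InGrid N B) : InGrid N (prodSet A B) := by
  intro z hz i
  obtain ⟨h1, h2⟩ := mem_prodSet A B z hz
  refine Fin.addCases (fun i => ?_) (fun i => ?_) i
  · exact hA _ h1 i
  · exact hB _ h2 i

lemma card_le_mul_proj (S : Finset (Fin (m + n) → ℝ)) :
    S.card ≤ (S.image (fstL m n)).card * (S.image (sndL m n)).card := by
  rw [← Finset.card_product]
  refine Finset.card_le_card_of_injOn (fun z => (fstL m n z, sndL m n z)) ?_ ?_
  · intro z hz
    simp only [Finset.coe_product, Set.mem_prod, Finset.mem_coe]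
    exact ⟨Finset.mem_image_of_mem _ hz, Finset.mem_image_of_mem _ hz⟩
  · intro z _ w _ h
    simp only [Prod.mk.injEq] at h
    exact ext_proj z w h.1 h.2

lemma noThree_prodSet (A : Finset (Fin m → ℝ)) (B : Finset (Fin n → ℝ))
    (hA : NoThreeCollinear A) (hB : NoThreeCollinear B) : NoThreeCollinear (prodSet A B) := by
  intro S hS hc hcol
  have hUA : S.image (fstL m n) ⊆ A := by
    intro x hx
    rw [Finset.mem_image] at hx
    obtain ⟨z, hz, rfl⟩ := hx
    exact (mem_prodSet A B z (hS hz)).1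
  have hVB : S.image (sndL m n) ⊆ B := by
    intro x hx
    rw [Finset.mem_image] at hx
    obtain ⟨z, hz, rfl⟩ := hx
    exact (mem_prodSet A B z (hS hz)).2
  have hmul := card_le_mul_proj S
  rw [collinear_iff'] at hcol
  rcases Nat.lt_or_ge (S.image (fstL m n)).card 2 with h1 | h1
  · rcases Nat.lt_or_ge (S.image (sndL m n)).card 2 with h2 | h2
    · have : (S.image (fstL m n)).card * (S.image (sndL m n)).card ≤ 1 * 1 :=
        Nat.mul_le_mul (by omega) (by omega)
      omega
    · have h3 := one_le_finrank _ h2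
      rw [Finset.coe_image] at h3
      have hinj := injOn_of_finrank (sndL m n) (S : Set _) (by omega)
      have hcard := Finset.card_image_of_injOn hinj
      refine hB _ hVB (by omega) ?_
      rw [collinear_iff', Finset.coe_image]
      exact (finrank_image_le _ _).trans hcol
  · have h3 := one_le_finrank _ h1
    rw [Finset.coe_image] at h3
    have hinj := injOn_of_finrank (fstL m n) (S : Set _) (by omega)
    have hcard := Finset.card_image_of_injOn hinj
    refine hA _ hUA (by omega) ?_
    rw [collinear_iff', Finset.coe_image]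
    exact (finrank_image_le _ _).trans hcol

lemma noFive_prodSet (A : Finset (Fin m → ℝ)) (B : Finset (Fin n → ℝ))
    (hA : NoThreeCollinear A) (hB : NoThreeCollinear B) (hA5 : NoFiveCoplanar A)
    (hB5 : NoFiveCoplanar B) : NoFiveCoplanar (prodSet A B) := by
  intro S hS hc hcol
  have hUA : S.image (fstL m n) ⊆ A := by
    intro x hx
    rw [Finset.mem_image] at hx
    obtain ⟨z, hz, rfl⟩ := hx
    exact (mem_prodSet A B z (hS hz)).1
  have hVB : S.image (sndL m n) ⊆ B := by
    intro x hx
    rw [Finset.mem_image] at hx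
    obtain ⟨z, hz, rfl⟩ := hx
    exact (mem_prodSet A B z (hS hz)).2
  have hmul := card_le_mul_proj S
  rw [coplanar_iff'] at hcol
  rcases Nat.lt_or_ge (S.image (fstL m n)).card 3 with h1 | h1
  · rcases Nat.lt_or_ge (S.image (sndL m n)).card 3 with h2 | h2
    · have : (S.image (fstL m n)).card * (S.image (sndL m n)).card ≤ 2 * 2 :=
        Nat.mul_le_mul (by omega) (by omega)
      omega
    · have h3 := two_le_finrank B _ hB hVB h2
      rw [Finset.coe_image] at h3
      have hinj := injOn_of_finrank (sndL m n) (S : Set _) (by omega)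
      have hcard := Finset.card_image_of_injOn hinj
      refine hB5 _ hVB (by omega) ?_
      rw [coplanar_iff', Finset.coe_image]
      exact (finrank_image_le _ _).trans hcol
  · have h3 := two_le_finrank A _ hA hUA h1
    rw [Finset.coe_image] at h3
    have hinj := injOn_of_finrank (fstL m n) (S : Set _) (by omega)
    have hcard := Finset.card_image_of_injOn hinj
    refine hA5 _ hUA (by omega) ?_
    rw [coplanar_iff', Finset.coe_image]
    exact (finrank_image_le _ _).trans hcol

/-- There is a good set with at least `c` points in the grid `{1, ..., N}^d`. -/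
def Good (d N c : ℕ) : Prop :=
  ∃ A : Finset (Fin d → ℝ), InGrid N A ∧ NoThreeCollinear A ∧ NoFiveCoplanar A ∧ c ≤ A.card

lemma Good.mul {d d' N c c' : ℕ} (h : Good d N c) (h' : Good d' N c') :
    Good (d + d') N (c * c') := by
  obtain ⟨A, a1, a2, a3, a4⟩ := h
  obtain ⟨B, b1, b2, b3, b4⟩ := h'
  exact ⟨prodSet A B, inGrid_prodSet N A B a1 b1, noThree_prodSet A B a2 b2,
    noFive_prodSet A B a2 b2 a3 b3, by rw [card_prodSet]; exact Nat.mul_le_mul a4 b4⟩

lemma Good.mono {d N N' c c' : ℕ} (h : Good d N c) (hN : N ≤ N') (hc : c' ≤ c) :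
    Good d N' c' := by
  obtain ⟨A, a1, a2, a3, a4⟩ := h
  refine ⟨A, ?_, a2, a3, hc.trans a4⟩
  intro x hx i
  obtain ⟨k, k1, k2, k3⟩ := a1 x hx i
  exact ⟨k, k1, k2.trans hN, k3⟩

lemma good_one (d N : ℕ) (hN : 1 ≤ N) : Good d N 1 := by
  refine ⟨{fun _ => 1}, ?_, ?_, ?_, ?_⟩
  · intro x hx i
    rw [Finset.mem_singleton] at hx
    subst hx
    exact ⟨1, le_refl _, hN, by simp⟩
  · intro S hS hc
    have := Finset.card_le_card hS
    simp at this
    omega
  · intro S hS hc
    have := Finset.card_le_card hS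
    simp at this
    omega
  · simp

lemma Good.pow {d N c : ℕ} (hN : 1 ≤ N) (h : Good d N c) (k : ℕ) : Good (k * d) N (c ^ k) := by
  induction k with
  | zero => simpa using good_one 0 N hN
  | succ k ih =>
    have := ih.mul h
    rw [pow_succ]
    have e : (k + 1) * d = k * d + d := by ring
    rw [e]
    exact this

end Pool.Agent.MP_45c2e2_co
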