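import Mathlib

/-!
Transfer of affine independence from `ZMod p` to the reals for grid points.
-/

set_option autoImplicit false

namespace Pool.Agent.MP_45c2e2_co

open Matrix

/-- Integer vectors whose reductions modulo a prime are linearly independent admit no nontrivial
real linear relation. -/
lemma lift_indep {m n : Type*} [Fintype m] [DecidableEq m] [Fintype n] [DecidableEq n] {p : ℕ}
    [Fact p.Prime]
    (Y : m → n → ℤ) (h : LinearIndependent (ZMod p) (fun i => (fun j => (Y i j : ZMod p))))
    (w : m → ℝ) (hw : ∀ j, ∑ i, w i * (Y i j : ℝ) = 0) : w = 0 := by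
  classical
  have hker : LinearMap.ker (Fintype.linearCombination (ZMod p)
      (fun i => (fun j => (Y i j : ZMod p)))) = ⊥ := by
    rw [LinearMap.ker_eq_bot]
    exact h.fintypeLinearCombination_injective
  obtain ⟨g, hg⟩ := LinearMap.exists_leftInverse_of_injective _ hker
  have hgk : ∀ k, g (fun j => (Y k j : ZMod p)) = Pi.single k 1 := by
    intro k
    have := LinearMap.congr_fun hg (Pi.single k 1)
    rw [LinearMap.comp_apply, LinearMap.id_apply] at this
    rw [← this]
    congr 1
    rw [Fintype.linearCombination_apply_single, one_smul]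
  let G : m → n → ZMod p := fun i j => g (Pi.single j 1) i
  have hG : ∀ (v : n → ZMod p) (i : m), g v i = ∑ j, G i j * v j := by
    intro v i
    conv_lhs => rw [← Finset.univ_sum_single v]
    rw [map_sum, Finset.sum_apply]
    refine Finset.sum_congr rfl (fun j _ => ?_)
    have : (Pi.single j (v j) : n → ZMod p) = v j • Pi.single j 1 := by
      rw [← Pi.single_smul, smul_eq_mul, mul_one]
    rw [this, map_smul, Pi.smul_apply, smul_eq_mul, mul_comm]
  let G' : m → n → ℤ := fun i j => ((G i j).val : ℤ)
  have hG' : ∀ i j, ((G' i j : ℤ) : ZMod p) = G i j := by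
    intro i j
    simp [G']
  let M : Matrix m m ℤ := fun i k => ∑ j, G' i j * Y k j
  have hM : M.map (Int.castRingHom (ZMod p)) = 1 := by
    ext i k
    rw [Matrix.map_apply]
    simp only [M, eq_intCast, Int.cast_sum, Int.cast_mul, hG']
    rw [← hG (fun j => (Y k j : ZMod p)) i, hgk k, Pi.single_apply, Matrix.one_apply]
  have hdet : M.det ≠ 0 := by
    intro h0
    have h1 : (Int.castRingHom (ZMod p)) M.det = (M.map (Int.castRingHom (ZMod p))).det := by
      rw [RingHom.map_det]; rfl
    rw [hM, det_one, h0, map_zero] at h1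
    exact zero_ne_one h1
  have hdetR : (M.map (Int.castRingHom ℝ)).det ≠ 0 := by
    have h1 : (Int.castRingHom ℝ) M.det = (M.map (Int.castRingHom ℝ)).det := by
      rw [RingHom.map_det]; rfl
    rw [← h1]
    simpa using hdet
  refine Matrix.eq_zero_of_mulVec_eq_zero hdetR ?_
  ext i
  rw [Matrix.mulVec, dotProduct, Pi.zero_apply]
  have : ∀ k, (M.map (Int.castRingHom ℝ)) i k * w k = ∑ j, (G' i j : ℝ) * (w k * (Y k j : ℝ)) := by
    intro k
    rw [Matrix.map_apply]
    simp only [M, eq_intCast, Int.cast_sum, Int.cast_mul]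
    rw [Finset.sum_mul]
    refine Finset.sum_congr rfl (fun j _ => by ring)
  simp only [this]
  rw [Finset.sum_comm]
  refine Finset.sum_eq_zero (fun j _ => ?_)
  rw [← Finset.mul_sum, hw j, mul_zero]

/-- The grid point attached to a vector over `ZMod p`: the representatives in `{1, ..., p}`. -/
noncomputable def pt {d p : ℕ} (u : Fin d → ZMod p) : Fin d → ℝ :=
  fun i => (((u i - 1).val + 1 : ℕ) : ℝ)

lemma pt_mem {d p : ℕ} [Fact p.Prime] (u : Fin d → ZMod p) (i : Fin d) :
    ∃ k : ℕ, 1 ≤ k ∧ k ≤ p ∧ pt u i = (k : ℝ) := by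
  refine ⟨(u i - 1).val + 1, by omega, ?_, rfl⟩
  have := ZMod.val_lt (u i - 1)
  omega

lemma pt_injective {d p : ℕ} [Fact p.Prime] :
    Function.Injective (pt : (Fin d → ZMod p) → (Fin d → ℝ)) := by
  intro u v h
  ext i
  have h1 := congrFun h i
  simp only [pt, Nat.cast_inj, add_left_inj] at h1
  have h2 := ZMod.val_injective p h1
  have h3 : u i = v i := by linear_combination h2
  rw [h3]

/-- Transfer of affine independence. -/
lemma affineIndependent_pt {d p m : ℕ} [Fact p.Prime] (u : Fin m → (Fin d → ZMod p))
    (hu : AffineIndependent (ZMod p) u) : AffineIndependent ℝ (fun i => pt (u i)) := by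
  classical
  rw [affineIndependent_iff] at hu ⊢
  -- the integer vectors, with a leading coordinate one
  let Y : Fin m → Option (Fin d) → ℤ := fun i j =>
    j.elim 1 (fun j => (((u i j - 1).val + 1 : ℕ) : ℤ))
  have hY : LinearIndependent (ZMod p) (fun i => (fun j => (Y i j : ZMod p))) := by
    rw [Fintype.linearIndependent_iff]
    intro w hw i
    have h0 : ∑ i, w i = 0 := by
      have := congrFun hw none
      simpa [Y, Finset.sum_apply] using this
    have h1 : ∑ i, w i • u i = 0 := by
      ext j
      have := congrFun hw (some j)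
      simpa [Y, Finset.sum_apply] using this
    exact hu Finset.univ w h0 h1 i (Finset.mem_univ i)
  intro s w hw0 hw1 i hi
  let w' : Fin m → ℝ := fun i => if i ∈ s then w i else 0
  have h0 : ∑ i, w' i = 0 := by
    simp only [w', Finset.sum_ite_mem, Finset.univ_inter]
    exact hw0
  have h1 : ∑ i, w' i • pt (u i) = 0 := by
    simp only [w', ite_smul, zero_smul, Finset.sum_ite_mem, Finset.univ_inter]
    exact hw1
  have h2 : w' = 0 := by
    refine lift_indep (p := p) Y hY w' ?_
    intro j
    cases j with
    | none => simpa [Y] using h0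
    | some j =>
      have := congrFun h1 j
      simpa [Y, pt, Finset.sum_apply] using this
  have h3 := congrFun h2 i
  simpa [w', hi] using h3

end Pool.Agent.MP_45c2e2_co
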