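import Mathlib
import Pool.Agent.Lib.MP_45c2e2_co.Field
import Pool.Agent.Lib.MP_45c2e2_co.Transfer
import Pool.Agent.Lib.MP_45c2e2_co.Real

/-!
The base sets in dimensions three and four.
-/

set_option autoImplicit false

namespace Pool.Agent.MP_45c2e2_co

open Module

section LinAlg

variable {K M : Type*} [Field K] [AddCommGroup M] [Module K M]

lemma affInd_three (x y z : M) (hxy : x ≠ y) (h : ∀ s : K, z ≠ x + s • (y - x)) :
    AffineIndependent K ![x, y, z] := by
  classical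
  rw [affineIndependent_iff]
  intro s w hw0 hw1
  let w' : Fin 3 → K := fun i => if i ∈ s then w i else 0
  have h0 : ∑ i, w' i = 0 := by
    simp only [w', Finset.sum_ite_mem, Finset.univ_inter]
    exact hw0
  have h1 : ∑ i, w' i • (![x, y, z] : Fin 3 → M) i = 0 := by
    simp only [w', ite_smul, zero_smul, Finset.sum_ite_mem, Finset.univ_inter]
    exact hw1
  rw [Fin.sum_univ_three] at h0 h1
  simp only [Matrix.cons_val_zero, Matrix.cons_val_one, Matrix.cons_val] at h1
  have h2 : w' 2 = 0 := by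
    by_contra hne
    refine h (-(w' 1) / w' 2) ?_
    have e0 : w' 0 = -(w' 1) - w' 2 := by linear_combination h0
    rw [e0] at h1
    have h3 : w' 2 • z = w' 2 • (x + (-(w' 1) / w' 2) • (y - x)) := by
      rw [smul_add, smul_smul]
      have : w' 2 * (-(w' 1) / w' 2) = -(w' 1) := by field_simp
      rw [this]
      have h4 : w' 2 • z = - ((-w' 1 - w' 2) • x + w' 1 • y) := by
        rw [eq_neg_iff_add_eq_zero, add_comm]; exact h1
      rw [h4, sub_smul, neg_smul, neg_smul, smul_sub]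
      abel
    exact smul_right_injective M hne h3
  have h3 : w' 1 = 0 := by
    by_contra hne
    rw [h2, add_zero] at h0
    have e0 : w' 0 = -(w' 1) := by linear_combination h0
    rw [h2, zero_smul, add_zero, e0, neg_smul, neg_add_eq_zero] at h1
    exact hxy (smul_right_injective M hne h1)
  have h4 : w' 0 = 0 := by rw [h2, h3] at h0; simpa using h0
  intro i hi
  have hi' : w' i = w i := by simp [w', hi]
  rw [← hi']
  fin_cases i
  · exact h4
  · exact h3
  · exact h2

lemma dep_four (x0 x1 x2 x3 : M) (h3 : AffineIndependent K ![x0, x1, x2])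
    (h4 : ¬ AffineIndependent K ![x0, x1, x2, x3]) :
    ∃ s t : K, x3 = x0 + s • (x1 - x0) + t • (x2 - x0) := by
  classical
  rw [affineIndependent_iff] at h3
  by_contra hcon
  push Not at hcon
  refine h4 ?_
  rw [affineIndependent_iff]
  intro s w hw0 hw1
  let w' : Fin 4 → K := fun i => if i ∈ s then w i else 0
  have h0 : ∑ i, w' i = 0 := by
    simp only [w', Finset.sum_ite_mem, Finset.univ_inter]
    exact hw0
  have h1 : ∑ i, w' i • (![x0, x1, x2, x3] : Fin 4 → M) i = 0 := by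
    simp only [w', ite_smul, zero_smul, Finset.sum_ite_mem, Finset.univ_inter]
    exact hw1
  rw [Fin.sum_univ_four] at h0 h1
  simp only [Matrix.cons_val_zero, Matrix.cons_val_one, Matrix.cons_val] at h1
  have h2 : w' 3 = 0 := by
    by_contra hne
    refine hcon (-(w' 1) / w' 3) (-(w' 2) / w' 3) ?_
    have e0 : w' 0 = -(w' 1) - w' 2 - w' 3 := by linear_combination h0
    rw [e0] at h1
    have h5 : w' 3 • x3
        = w' 3 • (x0 + (-(w' 1) / w' 3) • (x1 - x0) + (-(w' 2) / w' 3) • (x2 - x0)) := by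
      rw [smul_add, smul_add, smul_smul, smul_smul]
      have e1 : w' 3 * (-(w' 1) / w' 3) = -(w' 1) := by field_simp
      have e2 : w' 3 * (-(w' 2) / w' 3) = -(w' 2) := by field_simp
      rw [e1, e2]
      have h4 : w' 3 • x3 = - ((-w' 1 - w' 2 - w' 3) • x0 + w' 1 • x1 + w' 2 • x2) := by
        rw [eq_neg_iff_add_eq_zero, add_comm]; exact h1
      rw [h4, sub_smul, sub_smul, neg_smul, neg_smul, neg_smul, smul_sub, smul_sub]
      abel
    exact smul_right_injective M hne h5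
  rw [h2, add_zero] at h0
  rw [h2, zero_smul, add_zero] at h1
  have h5 := h3 Finset.univ (fun i => w' i.castSucc) (by
      rw [Fin.sum_univ_three]; exact h0) (by
      rw [Fin.sum_univ_three]
      simp only [Matrix.cons_val_zero, Matrix.cons_val_one, Matrix.cons_val]
      exact h1)
  intro i hi
  have hi' : w' i = w i := by simp [w', hi]
  rw [← hi']
  refine Fin.lastCases ?_ (fun j => ?_) i
  · exact h2
  · exact h5 j (Finset.mem_univ j)

end LinAlg

lemma card_five {α : Type*} [DecidableEq α] (S : Finset α) (hS : S.card = 5) :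
    ∃ a b c d e : α, a ≠ b ∧ a ≠ c ∧ a ≠ d ∧ a ≠ e ∧ b ≠ c ∧ b ≠ d ∧ b ≠ e ∧ c ≠ d ∧ c ≠ e ∧
      d ≠ e ∧ S = {a, b, c, d, e} := by
  obtain ⟨a, t, hat, rfl, ht⟩ := Finset.card_eq_succ.1 hS
  obtain ⟨b, u, hbu, rfl, hu⟩ := Finset.card_eq_succ.1 ht
  obtain ⟨c, d, e, h1, h2, h3, rfl⟩ := Finset.card_eq_three.1 hu
  simp only [Finset.mem_insert, Finset.mem_singleton, not_or] at hat hbu
  exact ⟨a, b, c, d, e, hat.1, hat.2.1, hat.2.2.1, hat.2.2.2, hbu.1, hbu.2.1, hbu.2.2, h1, h2, h3,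
    rfl⟩

/-- Five distinct points coplanar: no four of them are affinely independent. -/
lemma not_indep_of_coplanar {d : ℕ} (S : Set (Fin d → ℝ)) (hS : Coplanar ℝ S)
    (q : Fin 4 → (Fin d → ℝ)) (hq : ∀ i, q i ∈ S) : ¬ AffineIndependent ℝ q := by
  intro hi
  have h1 := hi.finrank_vectorSpan (n := 3) (by simp)
  have h2 : Coplanar ℝ (Set.range q) := hS.subset (by rintro _ ⟨i, rfl⟩; exact hq i)
  rw [coplanar_iff'] at h2
  omega

/-- From modular properties to the grid. -/
lemma good_of_mod {d p : ℕ} [Fact p.Prime] (B : Finset (Fin d → ZMod p))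
    (H3 : ∀ x ∈ B, ∀ y ∈ B, ∀ z ∈ B, x ≠ y → x ≠ z → y ≠ z →
      AffineIndependent (ZMod p) ![x, y, z])
    (H5 : ∀ x0 ∈ B, ∀ x1 ∈ B, ∀ x2 ∈ B, ∀ x3 ∈ B, ∀ x4 ∈ B, x0 ≠ x1 → x0 ≠ x2 → x0 ≠ x3 →
      x0 ≠ x4 → x1 ≠ x2 → x1 ≠ x3 → x1 ≠ x4 → x2 ≠ x3 → x2 ≠ x4 → x3 ≠ x4 →
      ∀ s3 t3 s4 t4 : ZMod p, x3 = x0 + s3 • (x1 - x0) + t3 • (x2 - x0) →
        x4 = x0 + s4 • (x1 - x0) + t4 • (x2 - x0) → False) :
    Good d p B.card := by
  classical
  refine ⟨B.image pt, ?_, ?_, ?_, ?_⟩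
  · intro x hx i
    rw [Finset.mem_image] at hx
    obtain ⟨u, -, rfl⟩ := hx
    exact pt_mem u i
  · intro S hS hc hcol
    obtain ⟨a, b, c, hab, hac, hbc, rfl⟩ := Finset.card_eq_three.1 hc
    have ha : a ∈ B.image pt := hS (by simp)
    have hb : b ∈ B.image pt := hS (by simp)
    have hc' : c ∈ B.image pt := hS (by simp)
    rw [Finset.mem_image] at ha hb hc'
    obtain ⟨x, hx, rfl⟩ := ha
    obtain ⟨y, hy, rfl⟩ := hb
    obtain ⟨z, hz, rfl⟩ := hc'
    have hi := H3 x hx y hy z hz (fun h => hab (by rw [h])) (fun h => hac (by rw [h]))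
      (fun h => hbc (by rw [h]))
    have hr := affineIndependent_pt _ hi
    have e : (fun i => pt ((![x, y, z] : Fin 3 → (Fin d → ZMod p)) i)) = ![pt x, pt y, pt z] := by
      ext i j
      fin_cases i <;> rfl
    rw [e, affineIndependent_iff_not_collinear_set] at hr
    refine hr ?_
    simpa using hcol
  · intro S hS hc hcop
    obtain ⟨a0, a1, a2, a3, a4, h01, h02, h03, h04, h12, h13, h14, h23, h24, h34, rfl⟩ :=
      card_five _ hc
    have m0 : a0 ∈ B.image pt := hS (by simp)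
    have m1 : a1 ∈ B.image pt := hS (by simp)
    have m2 : a2 ∈ B.image pt := hS (by simp)
    have m3 : a3 ∈ B.image pt := hS (by simp)
    have m4 : a4 ∈ B.image pt := hS (by simp)
    rw [Finset.mem_image] at m0 m1 m2 m3 m4
    obtain ⟨x0, hx0, rfl⟩ := m0
    obtain ⟨x1, hx1, rfl⟩ := m1
    obtain ⟨x2, hx2, rfl⟩ := m2
    obtain ⟨x3, hx3, rfl⟩ := m3
    obtain ⟨x4, hx4, rfl⟩ := m4
    have n01 : x0 ≠ x1 := fun h => h01 (by rw [h])
    have n02 : x0 ≠ x2 := fun h => h02 (by rw [h])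
    have n03 : x0 ≠ x3 := fun h => h03 (by rw [h])
    have n04 : x0 ≠ x4 := fun h => h04 (by rw [h])
    have n12 : x1 ≠ x2 := fun h => h12 (by rw [h])
    have n13 : x1 ≠ x3 := fun h => h13 (by rw [h])
    have n14 : x1 ≠ x4 := fun h => h14 (by rw [h])
    have n23 : x2 ≠ x3 := fun h => h23 (by rw [h])
    have n24 : x2 ≠ x4 := fun h => h24 (by rw [h])
    have n34 : x3 ≠ x4 := fun h => h34 (by rw [h])
    have hi := H3 x0 hx0 x1 hx1 x2 hx2 n01 n02 n12
    have d3 : ¬ AffineIndependent (ZMod p) ![x0, x1, x2, x3] := by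
      intro hd
      have hr := affineIndependent_pt _ hd
      refine not_indep_of_coplanar _ hcop _ ?_ hr
      intro i
      fin_cases i <;> simp
    have d4 : ¬ AffineIndependent (ZMod p) ![x0, x1, x2, x4] := by
      intro hd
      have hr := affineIndependent_pt _ hd
      refine not_indep_of_coplanar _ hcop _ ?_ hr
      intro i
      fin_cases i <;> simp
    obtain ⟨s3, t3, e3⟩ := dep_four x0 x1 x2 x3 hi d3
    obtain ⟨s4, t4, e4⟩ := dep_four x0 x1 x2 x4 hi d4
    exact H5 x0 hx0 x1 hx1 x2 hx2 x3 hx3 x4 hx4 n01 n02 n03 n04 n12 n13 n14 n23 n24 n34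
      s3 t3 s4 t4 e3 e4
  · rw [Finset.card_image_of_injective _ pt_injective]

/-- Dimension four. -/
lemma good_four (p : ℕ) [hp : Fact p.Prime] : Good 4 p (p ^ 2) := by
  classical
  let F := GaloisField p 4
  have : Fintype F := Fintype.ofFinite F
  have hcard : Fintype.card F = p ^ 4 := by
    rw [← Nat.card_eq_fintype_card]
    exact GaloisField.card p 4 (by norm_num)
  have hcardK : Fintype.card (ZMod p) = p := ZMod.card p
  let φ : F →ₐ[ZMod p] F := FiniteField.frobeniusAlgHom (ZMod p) F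
  have hφ : ∀ x : F, φ x = x ^ p := by
    intro x
    show x ^ (Fintype.card (ZMod p)) = x ^ p
    rw [hcardK]
  have hfix : ∀ w : F, φ w = w → ∃ s : ZMod p, algebraMap (ZMod p) F s = w := by
    intro w hw
    rw [hφ] at hw
    have h1 := (Subfield.mem_bot_iff_pow_eq_self F p).2 hw
    have h2 : (⊥ : Subfield F) ≤ (algebraMap (ZMod p) F).fieldRange := bot_le
    obtain ⟨s, hs⟩ := h2 h1
    exact ⟨s, hs⟩
  let T : Finset F := Polynomial.nthRootsFinset (p ^ 2 + 1) (1 : F)
  have hT : ∀ x ∈ T, x ∈ Tor φ := by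
    intro x hx
    have h1 := (Polynomial.mem_nthRootsFinset (by positivity) (1 : F)).1 hx
    show x * φ (φ x) = 1
    rw [hφ, hφ, ← pow_mul, ← pow_two, ← h1, pow_succ]
    ring
  have hTc : p ^ 2 ≤ T.card := by
    obtain ⟨g, hg⟩ := IsCyclic.exists_ofOrder_eq_natCard (α := Fˣ)
    have hgc : orderOf g = (p ^ 2 - 1) * (p ^ 2 + 1) := by
      rw [hg, Nat.card_units, Nat.card_eq_fintype_card, hcard]
      have : 1 ≤ p ^ 2 := Nat.one_le_pow _ _ hp.out.pos
      obtain ⟨k, hk⟩ : ∃ k, p ^ 2 = k + 1 := ⟨p ^ 2 - 1, by omega⟩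
      have h4 : p ^ 4 = (p ^ 2) * (p ^ 2) := by ring
      rw [h4, hk]
      have : (k + 1) * (k + 1) - 1 = k * (k + 1 + 1) := by
        have : (k + 1) * (k + 1) = k * (k + 1 + 1) + 1 := by ring
        omega
      rw [this]
      simp
    have hprim : IsPrimitiveRoot (g : F) ((p ^ 2 - 1) * (p ^ 2 + 1)) := by
      rw [IsPrimitiveRoot.coe_units_iff, ← hgc]
      exact IsPrimitiveRoot.orderOf g
    have h2 : 1 < p ^ 2 := Nat.one_lt_pow (by norm_num) hp.out.one_lt
    have hprim2 := hprim.pow (Nat.mul_pos (by omega) (by omega)) rfl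
    have := hprim2.card_nthRootsFinset
    show p ^ 2 ≤ (Polynomial.nthRootsFinset (p ^ 2 + 1) (1 : F)).card
    rw [this]
    omega
  have hfr : finrank (ZMod p) F = 4 := GaloisField.finrank p (by norm_num)
  let e : F ≃ₗ[ZMod p] (Fin 4 → ZMod p) :=
    (finBasisOfFinrankEq (ZMod p) F hfr).equivFun
  have hB : ∀ u ∈ T.image e, e.symm u ∈ Tor φ := by
    intro u hu
    rw [Finset.mem_image] at hu
    obtain ⟨x, hx, rfl⟩ := hu
    rw [e.symm_apply_apply]
    exact hT x hx
  have key := good_of_mod (d := 4) (p := p) (T.image e) ?_ ?_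
  · rw [Finset.card_image_of_injective _ e.injective] at key
    exact key.mono le_rfl hTc
  · intro x hx y hy z hz hxy hxz hyz
    refine affInd_three x y z hxy ?_
    intro s hs
    have h1 : e.symm z = e.symm x + s • (e.symm y - e.symm x) := by
      rw [hs, map_add, map_smul, map_sub]
    rcases tor_line φ _ _ _ (hB x hx) (hB y hy) (hB z hz)
      (fun h => hxy (e.symm.injective h)) s h1 with h | h
    · exact hxz (e.symm.injective h).symm
    · exact hyz (e.symm.injective h).symm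
  · intro x0 hx0 x1 hx1 x2 hx2 x3 hx3 x4 hx4 n01 n02 n03 n04 n12 n13 n14 n23 n24 n34
      s3 t3 s4 t4 e3 e4
    have inj := e.symm.injective
    refine tor_plane φ hfix (e.symm x0) (e.symm x1) (e.symm x2) (e.symm x3) (e.symm x4)
      (hB x0 hx0) (hB x1 hx1) (hB x2 hx2) (hB x3 hx3) (hB x4 hx4)
      (inj.ne n01) (inj.ne n02) (inj.ne n03) (inj.ne n04) (inj.ne n12) (inj.ne n13)
      (inj.ne n14) (inj.ne n23) (inj.ne n24) (inj.ne n34) s3 t3 s4 t4 ?_ ?_
    · rw [e3]; simp only [map_add, map_smul, map_sub]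
    · rw [e4]; simp only [map_add, map_smul, map_sub]

/-- Dimension three: the moment curve. -/
lemma good_three (p : ℕ) [hp : Fact p.Prime] : Good 3 p p := by
  classical
  let c : ZMod p → (Fin 3 → ZMod p) := fun t => ![t, t ^ 2, t ^ 3]
  have hc : Function.Injective c := by
    intro s t h
    exact congrFun h 0
  have key := good_of_mod (d := 3) (p := p) (Finset.univ.image c) ?_ ?_
  · rw [Finset.card_image_of_injective _ hc, Finset.card_univ, ZMod.card] at key
    exact key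
  · intro x hx y hy z hz hxy hxz hyz
    rw [Finset.mem_image] at hx hy hz
    obtain ⟨a, -, rfl⟩ := hx
    obtain ⟨b, -, rfl⟩ := hy
    obtain ⟨d, -, rfl⟩ := hz
    have hab : a ≠ b := fun h => hxy (by rw [h])
    have had : a ≠ d := fun h => hxz (by rw [h])
    have hbd : b ≠ d := fun h => hyz (by rw [h])
    refine affInd_three _ _ _ hxy ?_
    intro s hs
    have h1 : d = a + s * (b - a) := by
      simpa [c] using congrFun hs 0
    have h2 : d ^ 2 = a ^ 2 + s * (b ^ 2 - a ^ 2) := by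
      simpa [c] using congrFun hs 1
    have h3 : (d - a) * (d - b) = 0 := by
      linear_combination h2 - (a + b) * h1
    rcases mul_eq_zero.1 h3 with h | h
    · exact had (sub_eq_zero.1 h).symm
    · exact hbd (sub_eq_zero.1 h).symm
  · intro x0 hx0 x1 hx1 x2 hx2 x3 hx3 x4 hx4 n01 n02 n03 n04 n12 n13 n14 n23 n24 n34
      s3 t3 s4 t4 e3 e4
    rw [Finset.mem_image] at hx0 hx1 hx2 hx3
    obtain ⟨a0, -, rfl⟩ := hx0
    obtain ⟨a1, -, rfl⟩ := hx1
    obtain ⟨a2, -, rfl⟩ := hx2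
    obtain ⟨a3, -, rfl⟩ := hx3
    have h03 : a0 ≠ a3 := fun h => n03 (by rw [h])
    have h13 : a1 ≠ a3 := fun h => n13 (by rw [h])
    have h23 : a2 ≠ a3 := fun h => n23 (by rw [h])
    have h1 : a3 = a0 + s3 * (a1 - a0) + t3 * (a2 - a0) := by
      simpa [c] using congrFun e3 0
    have h2 : a3 ^ 2 = a0 ^ 2 + s3 * (a1 ^ 2 - a0 ^ 2) + t3 * (a2 ^ 2 - a0 ^ 2) := by
      simpa [c] using congrFun e3 1
    have h3 : a3 ^ 3 = a0 ^ 3 + s3 * (a1 ^ 3 - a0 ^ 3) + t3 * (a2 ^ 3 - a0 ^ 3) := by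
      simpa [c] using congrFun e3 2
    have h4 : (a3 - a0) * ((a3 - a1) * (a3 - a2)) = 0 := by
      linear_combination h3 - (a0 + a1 + a2) * h2 + (a0 * a1 + a0 * a2 + a1 * a2) * h1
    rcases mul_eq_zero.1 h4 with h | h
    · exact h03 (sub_eq_zero.1 h).symm
    · rcases mul_eq_zero.1 h with h | h
      · exact h13 (sub_eq_zero.1 h).symm
      · exact h23 (sub_eq_zero.1 h).symm

/-- The exponent of the lower bound. -/
lemma good_prime (d p : ℕ) [hp : Fact p.Prime] : Good d p (p ^ (d / 4 + (d + 1) / 4)) := by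
  have h1 : 1 ≤ p := hp.out.pos
  obtain ⟨a, r, hr, rfl⟩ : ∃ a r, r < 4 ∧ d = a * 4 + r :=
    ⟨d / 4, d % 4, Nat.mod_lt _ (by norm_num), by omega⟩
  have h4 := (good_four p).pow h1 a
  rw [← pow_mul] at h4
  rcases (by omega : r < 3 ∨ r = 3) with h | h
  · have h5 := h4.mul (good_one r p h1)
    rw [mul_one] at h5
    have e : (a * 4 + r) / 4 + (a * 4 + r + 1) / 4 = 2 * a := by omega
    rw [e]
    exact h5
  · subst h
    have h5 := h4.mul (good_three p)
    rw [← pow_succ] at h5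
    have e : (a * 4 + 3) / 4 + (a * 4 + 3 + 1) / 4 = 2 * a + 1 := by omega
    rw [e]
    exact h5

/-- All `N`. -/
lemma good_all (d N : ℕ) (hN : 1 ≤ N) :
    ∃ c : ℕ, Good d N c ∧ ((N : ℝ) / 2) ^ (d / 4 + (d + 1) / 4) ≤ c := by
  rcases (by omega : N = 1 ∨ 2 ≤ N) with rfl | h2
  · refine ⟨1, good_one d 1 le_rfl, ?_⟩
    rw [Nat.cast_one]
    exact pow_le_one₀ (by norm_num) (by norm_num)
  · obtain ⟨p, hp, h3, h4⟩ := Nat.exists_prime_lt_and_le_two_mul (N / 2) (by omega)
    haveI : Fact p.Prime := ⟨hp⟩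
    refine ⟨p ^ (d / 4 + (d + 1) / 4), (good_prime d p).mono (by omega) le_rfl, ?_⟩
    push_cast
    refine pow_le_pow_left₀ (by positivity) ?_ _
    have : N ≤ 2 * p := by omega
    have h5 : (N : ℝ) ≤ 2 * p := by exact_mod_cast this
    linarith

end Pool.Agent.MP_45c2e2_co
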